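import Pool.Agent.N89.GS.Stm
import Pool.Agent.W578.SA.TRK

/-!
Project GS: transfer of the separation of points over two points of `G`.
-/

set_option autoImplicit false

namespace Pool.Agent.N169.GS.TSW

open MvPolynomial NumberField Pool.Agent.W659 Pool.Agent.W659.SA Pool.Agent.N89.GS

/-- the variables -/
inductive Vars (r s m l : ℕ) : Type
  | V : Bool → Fin r → Fin 3 → Vars r s m l
  | W : Bool → Fin r → Fin 3 → Vars r s m l
  | u : Bool → Fin s → Vars r s m l
  | u' : Bool → Fin s → Vars r s m l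
  | T : Fin l → Fin m → Vars r s m l
  | y : Fin l → Fin m → Vars r s m l
  | z : Fin l → Fin l → Fin m → Fin m → Vars r s m l
  | c : Fin l → Vars r s m l
  | c' : Fin l → Vars r s m l
  | t : Fin r → Fin 3 → Fin 3 → Vars r s m l
  | t' : Fin s → Vars r s m l
  deriving Fintype

variable {r s m l q : ℕ}

/-- the embedding of the variables of `G` and `Λ` -/
def emb (g : Fin l → Bool) (i : Fin l) : ((Fin r × Fin 3) ⊕ (Fin s ⊕ Fin m)) → Vars r s m l :=
  Sum.elim (fun ij => Vars.V (g i) ij.1 ij.2) (Sum.elim (fun j => Vars.u (g i) j)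
    (fun j => Vars.T i j))

/-- the equations in terms of the values -/
def Sol {O k : Type} [CommRing O] [Field k] (φ : O →+* k) (a b : Fin r → ℤ)
    (G : Fin q → Pol O r s m) {ι : Type} (Λ : ι → Pol O r s m) (g : Fin l → Bool)
    (x : Vars r s m l → k) : Prop :=
  (∀ e : Bool × Fin r, x (.V e.1 e.2 1) ^ 2 * x (.V e.1 e.2 2) - (x (.V e.1 e.2 0) ^ 3 +
      (a e.2 : k) * x (.V e.1 e.2 0) * x (.V e.1 e.2 2) ^ 2 +
        (b e.2 : k) * x (.V e.1 e.2 2) ^ 3) = 0) ∧
  (∀ e : Bool × Fin r, (∑ j : Fin 3, x (.V e.1 e.2 j) * x (.W e.1 e.2 j)) - 1 = 0) ∧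
  (∀ e : Bool × Fin s, x (.u e.1 e.2) * x (.u' e.1 e.2) - 1 = 0) ∧
  (∀ i : Fin l, (∑ j : Fin m, x (.T i j) * x (.y i j)) - 1 = 0) ∧
  (∀ w : {w : Fin l × Fin l // w.1 ≠ w.2 ∧ g w.1 = g w.2}, (∑ ij : Fin m × Fin m,
      (x (.T w.1.1 ij.1) * x (.T w.1.2 ij.2) - x (.T w.1.1 ij.2) * x (.T w.1.2 ij.1)) *
        x (.z w.1.1 w.1.2 ij.1 ij.2)) - 1 = 0) ∧
  (∀ _ : Unit, (∑ i : Fin l, x (.c i) * x (.c' i)) - 1 = 0) ∧
  (∀ _ : Unit, (∑ i : Fin r, ∑ ij : Fin 3 × Fin 3,
      (x (.V false i ij.1) * x (.V true i ij.2) - x (.V false i ij.2) * x (.V true i ij.1)) *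
        x (.t i ij.1 ij.2)) + (∑ j : Fin s, (x (.u false j) - x (.u true j)) * x (.t' j)) - 1 = 0) ∧
  (∀ e : Fin q × Fin l, eval₂ φ (x ∘ emb g e.2) (G e.1) = 0) ∧
  (∀ e : ι, ∑ i : Fin l, x (.c i) * eval₂ φ (x ∘ emb g i) (Λ e) = 0)

/-- the equations -/
noncomputable def eqs {O : Type} [CommRing O] (a b : Fin r → ℤ)
    (G : Fin q → Pol O r s m) {ι : Type} (Λ : ι → Pol O r s m) (g : Fin l → Bool) :
    Set (MvPolynomial (Vars r s m l) O) :=
  (Set.range fun e : Bool × Fin r => X (.V e.1 e.2 1) ^ 2 * X (.V e.1 e.2 2) -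
      (X (.V e.1 e.2 0) ^ 3 +
      (a e.2 : MvPolynomial (Vars r s m l) O) * X (.V e.1 e.2 0) * X (.V e.1 e.2 2) ^ 2 +
        (b e.2 : MvPolynomial (Vars r s m l) O) * X (.V e.1 e.2 2) ^ 3)) ∪
  ((Set.range fun e : Bool × Fin r => (∑ j : Fin 3, X (.V e.1 e.2 j) * X (.W e.1 e.2 j)) - 1) ∪
  ((Set.range fun e : Bool × Fin s => X (.u e.1 e.2) * X (.u' e.1 e.2) - 1) ∪
  ((Set.range fun i : Fin l => (∑ j : Fin m, X (.T i j) * X (.y i j)) - 1) ∪
  ((Set.range fun w : {w : Fin l × Fin l // w.1 ≠ w.2 ∧ g w.1 = g w.2} => (∑ ij : Fin m × Fin m,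
      (X (.T w.1.1 ij.1) * X (.T w.1.2 ij.2) - X (.T w.1.1 ij.2) * X (.T w.1.2 ij.1)) *
        X (.z w.1.1 w.1.2 ij.1 ij.2)) - 1) ∪
  ((Set.range fun _ : Unit => (∑ i : Fin l, X (.c i) * X (.c' i)) - 1) ∪
  ((Set.range fun _ : Unit => (∑ i : Fin r, ∑ ij : Fin 3 × Fin 3,
      (X (.V false i ij.1) * X (.V true i ij.2) - X (.V false i ij.2) * X (.V true i ij.1)) *
        X (.t i ij.1 ij.2)) + (∑ j : Fin s, (X (.u false j) - X (.u true j)) * X (.t' j)) - 1) ∪
  ((Set.range fun e : Fin q × Fin l => rename (emb g e.2) (G e.1)) ∪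
  (Set.range fun e : ι => ∑ i : Fin l, X (.c i) * rename (emb g i) (Λ e)))))))))

lemma eqs_iff {O k : Type} [CommRing O] [Field k] (φ : O →+* k) (a b : Fin r → ℤ)
    (G : Fin q → Pol O r s m) {ι : Type} (Λ : ι → Pol O r s m) (g : Fin l → Bool)
    (x : Vars r s m l → k) :
    (∀ f ∈ Ideal.span (eqs a b G Λ g), eval₂ φ x f = 0) ↔ Sol φ a b G Λ g x := by
  have h1 : (∀ f ∈ Ideal.span (eqs a b G Λ g), eval₂ φ x f = 0) ↔ ∀ f ∈ eqs a b G Λ g,
      eval₂Hom φ x f = 0 := by
    constructor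
    · intro h f hf
      exact h f (Ideal.subset_span hf)
    · intro h f hf
      have h2 : Ideal.span (eqs a b G Λ g) ≤ RingHom.ker (eval₂Hom φ x) :=
        Ideal.span_le.2 fun g hg => h g hg
      exact h2 hf
  have hr : ∀ (i : Fin l) (f : Pol O r s m),
      eval₂Hom φ x (rename (emb g i) f) = eval₂ φ (x ∘ emb g i) f := fun i f => by
    rw [coe_eval₂Hom, eval₂_rename]
  rw [h1]
  unfold eqs Sol
  simp only [Set.mem_union, or_imp, forall_and, Set.forall_mem_range, map_sub, map_mul, map_pow,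
    map_add, map_sum, map_one, map_intCast, hr, eval₂Hom_X']

/-- the property for fixed `l` and `g` -/
def Sep1 {O k : Type} [CommRing O] [Field k] (φ : O →+* k) (a b : Fin r → ℤ)
    (G : Fin q → Pol O r s m) {ι : Type} (Λ : ι → Pol O r s m) (g : Fin l → Bool) : Prop :=
  ∀ (V V' : Fin r → Fin 3 → k) (u u' : Fin s → k), OnB a b V u → OnB a b V' u' →
    ¬ SameB V u V' u' → ∀ (T : Fin l → Fin m → k),
    (∀ i, OnF φ G (cond (g i) V' V) (cond (g i) u' u) (T i)) →
    (∀ i j, i ≠ j → g i = g j → ∀ c : k, T i ≠ c • T j) →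
      LinearIndependent k (fun i => fun x => vl φ (Λ x) (cond (g i) V' V) (cond (g i) u' u) (T i))

lemma dual_one {k : Type} [Field k] {A : Type} [Fintype A] [DecidableEq A] (v : A → k)
    (hv : ∃ i, v i ≠ 0) : ∃ w : A → k, ∑ j, v j * w j = 1 := by
  obtain ⟨j, hj⟩ := hv
  refine ⟨Pi.single j (v j)⁻¹, ?_⟩
  rw [Finset.sum_eq_single j]
  · rw [Pi.single_eq_same]
    exact mul_inv_cancel₀ hj
  · intro k _ hk
    rw [Pi.single_eq_of_ne hk, mul_zero]
  · intro h
    exact absurd (Finset.mem_univ j) h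

lemma minor_ne {k : Type} [Field k] {n : ℕ} (x y : Fin n → k) (hy : y ≠ 0)
    (h : ∀ c : k, x ≠ c • y) : ∃ ij : Fin n × Fin n, x ij.1 * y ij.2 - x ij.2 * y ij.1 ≠ 0 := by
  by_contra hno
  push Not at hno
  obtain ⟨j, hj⟩ := Function.ne_iff.1 hy
  refine h (x j / y j) ?_
  funext i
  have h1 := hno (i, j)
  simp only at h1
  have hj' : y j ≠ 0 := hj
  rw [Pi.smul_apply, smul_eq_mul]
  field_simp
  linear_combination h1

/-- the transfer for fixed `l` and `g` -/
lemma fixed (hTRK : S_TRK) (K : Type) [Field K] [NumberField K] (a b : Fin r → ℤ)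
    (G : Fin q → Pol (𝓞 K) r s m) (ι : Type) [Finite ι] (Λ : ι → Pol (𝓞 K) r s m)
    (g : Fin l → Bool) (σ : K →+* ℂ) (hsep : Sep1 (toC σ) a b G Λ g) :
    ∃ p₁ : ℕ, ∀ p : ℕ, p.Prime → p₁ ≤ p → ∀ (k : Type) [Field k] [CharP k p] (φ : 𝓞 K →+* k),
      Sep1 φ a b G Λ g := by
  classical
  by_contra hcon
  push Not at hcon
  obtain ⟨x, hx⟩ := hTRK K (Vars r s m l) (Ideal.span (eqs a b G Λ g)) (by
    intro N
    obtain ⟨p, hp, hNp, k, hk, hc, φ, hA⟩ := hcon N
    unfold Sep1 at hA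
    push Not at hA
    obtain ⟨V, V', u, u', hVu, hVu', hne, T, hT, hTT, hdep⟩ := hA
    refine ⟨p, hp, hNp, k, hk, hc, φ, ?_⟩
    rw [Fintype.not_linearIndependent_iff] at hdep
    obtain ⟨c, hc0, hc1⟩ := hdep
    obtain ⟨c', hc'⟩ := dual_one c hc1
    have hE : ∀ e i, FD.OnE (a i) (b i) ((cond e V' V) i) := by
      intro e i
      cases e
      · exact hVu.1 i
      · exact hVu'.1 i
    have hu : ∀ e j, (cond e u' u) j ≠ 0 := by
      intro e j
      cases e
      · exact hVu.2 j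
      · exact hVu'.2 j
    have hW : ∀ e i, ∃ W : Fin 3 → k, ∑ j, (cond e V' V) i j * W j = 1 := fun e i =>
      dual_one _ (Function.ne_iff.1 (hE e i).1)
    choose W hW using hW
    have hy : ∀ i, ∃ y : Fin m → k, ∑ j, T i j * y j = 1 := fun i =>
      dual_one _ (Function.ne_iff.1 (hT i).1)
    choose y hy using hy
    have hz : ∀ w : Fin l × Fin l, ∃ z : Fin m × Fin m → k, w.1 ≠ w.2 ∧ g w.1 = g w.2 →
        ∑ ij : Fin m × Fin m, (T w.1 ij.1 * T w.2 ij.2 - T w.1 ij.2 * T w.2 ij.1) * z ij = 1 := by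
      intro w
      by_cases hq : w.1 ≠ w.2 ∧ g w.1 = g w.2
      · obtain ⟨z, hz⟩ := dual_one (fun ij : Fin m × Fin m =>
          (T w.1 ij.1 * T w.2 ij.2 - T w.1 ij.2 * T w.2 ij.1))
          (minor_ne (T w.1) (T w.2) (hT w.2).1 (hTT w.1 w.2 hq.1 hq.2))
        exact ⟨z, fun _ => hz⟩
      · exact ⟨0, fun h => absurd h hq⟩
    choose z hz using hz
    have ht : ∃ (t : Fin r → Fin 3 → Fin 3 → k) (t' : Fin s → k),
        (∑ i : Fin r, ∑ ij : Fin 3 × Fin 3,
          (V i ij.1 * V' i ij.2 - V i ij.2 * V' i ij.1) * t i ij.1 ij.2) +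
          (∑ j : Fin s, (u j - u' j) * t' j) = 1 := by
      by_cases hV : ∃ i, ∀ c : k, V i ≠ c • V' i
      · obtain ⟨i, hi⟩ := hV
        obtain ⟨z, hz⟩ := dual_one (fun ij : Fin 3 × Fin 3 =>
          (V i ij.1 * V' i ij.2 - V i ij.2 * V' i ij.1))
          (minor_ne (V i) (V' i) (hE true i).1 hi)
        refine ⟨fun i' j j' => if i' = i then z (j, j') else 0, 0, ?_⟩
        rw [Finset.sum_eq_single i]
        · simp only [if_true, Pi.zero_apply, mul_zero, Finset.sum_const_zero, add_zero]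
          exact hz
        · intro i' _ hi'
          simp [hi']
        · intro h
          exact absurd (Finset.mem_univ i) h
      · push Not at hV
        have huu : u ≠ u' := fun h => hne ⟨hV, h⟩
        obtain ⟨j, hj⟩ := Function.ne_iff.1 huu
        obtain ⟨t', ht'⟩ := dual_one (fun j => u j - u' j) ⟨j, sub_ne_zero.2 hj⟩
        refine ⟨0, t', ?_⟩
        simp only [Pi.zero_apply, mul_zero, Finset.sum_const_zero, zero_add]
        exact ht'
    obtain ⟨t, t', ht⟩ := ht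
    refine ⟨fun w => match w with
      | .V e i j => (cond e V' V) i j
      | .W e i j => W e i j
      | .u e j => (cond e u' u) j
      | .u' e j => ((cond e u' u) j)⁻¹
      | .T i j => T i j
      | .y i j => y i j
      | .z i i' j j' => z (i, i') (j, j')
      | .c i => c i
      | .c' i => c' i
      | .t i j j' => t i j j'
      | .t' j => t' j, ?_⟩
    rw [eqs_iff]
    refine ⟨fun e => ?_, fun e => ?_, fun e => ?_, fun i => ?_, fun w => ?_, fun _ => ?_,
      fun _ => ?_, fun e => ?_, fun e => ?_⟩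
    · exact sub_eq_zero.2 (hE e.1 e.2).2
    · exact sub_eq_zero.2 (hW e.1 e.2)
    · exact sub_eq_zero.2 (mul_inv_cancel₀ (hu e.1 e.2))
    · exact sub_eq_zero.2 (hy i)
    · exact sub_eq_zero.2 (hz w.1 w.2)
    · exact sub_eq_zero.2 hc'
    · exact sub_eq_zero.2 ht
    · have h1 := (hT e.2).2 e.1
      unfold vl at h1
      rw [← h1]
      congr 1
      funext w
      rcases w with ij | j | j <;> rfl
    · have h1 := congrFun hc0 e
      rw [Finset.sum_apply] at h1
      rw [Pi.zero_apply] at h1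
      rw [← h1]
      refine Finset.sum_congr rfl fun i _ => ?_
      rw [Pi.smul_apply, smul_eq_mul]
      unfold vl
      congr 2
      funext w
      rcases w with ij | j | j <;> rfl) σ
  rw [eqs_iff] at hx
  obtain ⟨h1, h2, h3, h4, h5, h6, h7, h8, h9⟩ := hx
  have hV : ∀ (e : Bool) i, FD.OnE (a i) (b i)
      ((fun (i : Fin r) (j : Fin 3) => x (.V e i j)) i) := by
    intro e i
    refine ⟨fun h0 => ?_, sub_eq_zero.1 (h1 (e, i))⟩
    have h10 := h2 (e, i)
    have h11 : ∀ j, x (.V e i j) = 0 := fun j => congrFun h0 j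
    simp [h11] at h10
  have hu : ∀ (e : Bool) j, (fun (j : Fin s) => x (.u e j)) j ≠ 0 := by
    intro e j h0
    have h10 := h3 (e, j)
    have h0' : x (.u e j) = 0 := h0
    simp [h0'] at h10
  have hcV : ∀ e : Bool, cond e (fun (i : Fin r) (j : Fin 3) => x (.V true i j))
      (fun (i : Fin r) (j : Fin 3) => x (.V false i j)) = fun i j => x (.V e i j) := by
    intro e
    cases e <;> rfl
  have hcu : ∀ e : Bool, cond e (fun (j : Fin s) => x (.u true j))
      (fun (j : Fin s) => x (.u false j)) = fun j => x (.u e j) := by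
    intro e
    cases e <;> rfl
  have hval : ∀ (i : Fin l) (f : Pol (𝓞 K) r s m),
      vl (toC σ) f (cond (g i) (fun (i : Fin r) (j : Fin 3) => x (.V true i j))
        (fun (i : Fin r) (j : Fin 3) => x (.V false i j)))
        (cond (g i) (fun (j : Fin s) => x (.u true j)) (fun (j : Fin s) => x (.u false j)))
        (fun j => x (.T i j)) = eval₂ (toC σ) (x ∘ emb g i) f := by
    intro i f
    rw [hcV, hcu]
    unfold vl
    congr 1
    funext w
    rcases w with ij | j | j <;> rfl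
  have hlin := hsep (fun (i : Fin r) (j : Fin 3) => x (.V false i j))
    (fun (i : Fin r) (j : Fin 3) => x (.V true i j)) (fun (j : Fin s) => x (.u false j))
    (fun (j : Fin s) => x (.u true j)) ⟨hV false, hu false⟩ ⟨hV true, hu true⟩ (by
      rintro ⟨hs1, hs2⟩
      have h10 := h7 ()
      rw [Finset.sum_eq_zero, Finset.sum_eq_zero] at h10
      · norm_num at h10
      · intro j _
        have h11 : x (.u false j) = x (.u true j) := congrFun hs2 j
        rw [h11, sub_self, zero_mul]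
      · intro i _
        obtain ⟨c, hc⟩ := hs1 i
        have h11 : ∀ j, x (.V false i j) = c * x (.V true i j) := fun j => congrFun hc j
        refine Finset.sum_eq_zero fun ij _ => ?_
        rw [h11, h11]
        ring) (fun i j => x (.T i j)) (by
      intro i
      refine ⟨fun h0 => ?_, fun e => ?_⟩
      · have h10 := h4 i
        have h11 : ∀ j, x (.T i j) = 0 := fun j => congrFun h0 j
        simp [h11] at h10
      · rw [hval]
        exact h8 (e, i)) (by
      intro i j hij hgij c hc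
      have h10 := h5 ⟨(i, j), hij, hgij⟩
      have h11 : ∀ e, x (.T i e) = c * x (.T j e) := fun e => congrFun hc e
      simp only [h11] at h10
      rw [Finset.sum_eq_zero] at h10
      · norm_num at h10
      · intro ij _
        ring)
  rw [Fintype.linearIndependent_iff] at hlin
  have h10 := hlin (fun i => x (.c i)) (by
    funext e
    rw [Finset.sum_apply, Pi.zero_apply, ← h9 e]
    refine Finset.sum_congr rfl fun i _ => ?_
    rw [Pi.smul_apply, smul_eq_mul, hval])
  have h11 := h6 ()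
  rw [Finset.sum_eq_zero] at h11
  · norm_num at h11
  · intro i _
    have h12 : x (.c i) = 0 := h10 i
    rw [h12, zero_mul]

theorem main : S_TSW := by
  classical
  intro K _ _ r s m q a b G ι _ Λ k₀ σ hsep
  have h1 : ∀ (l : ℕ), ∃ p₁ : ℕ, l ≤ k₀ → ∀ g : Fin l → Bool, ∀ p : ℕ, p.Prime → p₁ ≤ p →
      ∀ (k : Type) [Field k] [CharP k p] (φ : 𝓞 K →+* k), Sep1 φ a b G Λ g := by
    intro l
    by_cases hl : l ≤ k₀
    · have h2 : ∀ g : Fin l → Bool, ∃ p₁ : ℕ, ∀ p : ℕ, p.Prime → p₁ ≤ p →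
          ∀ (k : Type) [Field k] [CharP k p] (φ : 𝓞 K →+* k), Sep1 φ a b G Λ g := fun g =>
        fixed Pool.Agent.W578.SA.TRK.main K a b G ι Λ g σ
          (fun V V' u u' h h' hne T hT hTT => hsep V V' u u' h h' hne l hl g T hT hTT)
      choose f hf using h2
      refine ⟨Finset.univ.sup f, fun _ g p hp hle => hf g p hp (le_trans ?_ hle)⟩
      exact Finset.le_sup (f := f) (Finset.mem_univ g)
    · exact ⟨0, fun h => absurd h hl⟩
  choose f hf using h1
  refine ⟨(Finset.range (k₀ + 1)).sup f, fun p hp hle k _ _ φ => ?_⟩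
  intro V V' u u' h h' hne l hl g T hT hTT
  refine hf l hl g p hp (le_trans ?_ hle) k φ V V' u u' h h' hne T hT hTT
  exact Finset.le_sup (f := f) (Finset.mem_range.2 (by omega))

end Pool.Agent.N169.GS.TSW
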